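import Mathlib
import Pool.Agent.Q29.EqPoint
import Pool.Agent.Y760.ST.Gb

/-!
# Joint uniform distribution of the multiples of the monomials in the numbers `ζ(a n + b)`, for instance `(ζ(2n)/ζ(n)²) ^ k`

Let `β_0 = 1, β_1, …, β_l` be real algebraic numbers, linearly independent over the rationals, and let `e_0 = 0, e_1, …, e_r` be
distinct vectors of integer exponents, of any sign. Let `y(n)` be a vector of some of the numbers
`β_j ∏ ζ(a n + b) ^ (e_i (a, b))` with `(j, i) ≠ (0, 0)`, each at most once; for `t(n) = ζ(2n) / ζ(n) ^ 2` for instance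
`y(n) = (t(n), t(n) ^ 2, …, t(n) ^ s)` or `y(n) = (t(n), t(n + 1), …, t(n + s))`. There is `D > 1` such that for all `C` and `K` there
is `κ > 0` such that for all large `n` and all `M` with `D ^ n ≤ M ≤ C ^ n` the multiples of the vector `y(n)` by the integers
up to `M`, by their `k`-th powers for `k ≤ K` (even with real polynomials of degree less than `k` added), and by the primes up
to `M` in each residue class modulo `d ≤ M ^ κ` are jointly uniformly distributed modulo one in the cubes of side `1 / q`,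
`q ≤ M ^ κ`, with an error `M ^ (1 - κ)`. If `t(n)` were rational with denominator `q`, or algebraic of small degree and
height, the multiples of these vectors would not be uniformly distributed for `M` large in terms of `q`.

The proof uses Schmidt's theorem for these numbers (starting files `Y760/ST`), an inverse theorem for the sums of Weyl and a
form of the estimate of Vinogradov for the sums over primes with a power saving (`H373R2/NB`, `W110/HV`).
-/

set_option autoImplicit false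

namespace Pool.Agent.Results.MP_f1a024_nt.JointMonomials

open Finset Polynomial

/-- The points `y n ∈ ℝ ^ s`, `n ∈ S`, are uniformly distributed modulo one with error `E` in the cubes of side `1 / q`,
`q ≤ Q`. -/
def Equi {s : ℕ} (S : Finset ℕ) (y : ℕ → Fin s → ℝ) (Q E : ℝ) : Prop :=
  ∀ q : ℕ, 1 ≤ q → (q : ℝ) ≤ Q → ∀ ρ : Fin s → ℤ, (∀ j, 0 ≤ ρ j ∧ ρ j < q) →
    |((S.filter fun n => ∀ j, (ρ j : ℝ) / q ≤ Int.fract (y n j) ∧ Int.fract (y n j) < (ρ j + 1) / q).card : ℝ) -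
      S.card / (q : ℝ) ^ s| ≤ E

/-- The multiples of the vector `x` are uniformly distributed modulo one at the scale `M`, with a power saving, along all
polynomials of degree `k ≤ K` (the points `x n ^ k + R(n)`, `0 ≤ n < M`, `R` a vector of real polynomials of degree less
than `k`), and along the primes in all residue classes modulo `d ≤ M ^ κ` (the points `x p + β`, `p ≤ M` prime,
`p ≡ r (mod d)`). -/
def Joint (κ : ℝ) (K M : ℕ) {s : ℕ} (x : Fin s → ℝ) : Prop :=
  (∀ k : ℕ, 1 ≤ k → k ≤ K → ∀ R : Fin s → ℝ[X], (∀ j, (R j).degree < k) →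
    Equi (range M) (fun n j => x j * (n : ℝ) ^ k + (R j).eval (n : ℝ)) ((M : ℝ) ^ κ) ((M : ℝ) ^ (1 - κ))) ∧
  (∀ d r : ℕ, 1 ≤ d → (d : ℝ) ≤ (M : ℝ) ^ κ → ∀ β : Fin s → ℝ,
    Equi ((range (M + 1)).filter fun p => p.Prime ∧ p ≡ r [MOD d]) (fun p j => x j * p + β j) ((M : ℝ) ^ κ)
      ((M : ℝ) ^ (1 - κ)))

theorem joint_iff (κ : ℝ) (K M : ℕ) {s : ℕ} (x : Fin s → ℝ) : Joint κ K M x ↔ Pool.Agent.Q29.Eqd.Joint κ K M x :=
  Iff.rfl

/-- `ζ(n) = ∑ 1 / k ^ n` -/
noncomputable def zeta (n : ℕ) : ℝ := ∑' k : ℕ, 1 / ((k : ℝ) + 1) ^ n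

/-- the product of the `ζ((a + 1) n + b) ^ e a b` over `a < A`, `b < h` -/
noncomputable def monomial {A h : ℕ} (e : Fin A → Fin h → ℤ) (n : ℕ) : ℝ :=
  ∏ a : Fin A, ∏ b : Fin h, zeta ((a + 1) * n + b) ^ e a b

open Pool.Agent.TH507.ZS Pool.Agent.Y760.RT in
theorem dser_eq_zeta (n : ℕ) : dser zQ n = zeta n := by
  unfold dser zeta
  refine tsum_congr fun k => ?_
  rw [zQ_apply (by omega)]
  push_cast
  rfl

theorem zeta_summable {n : ℕ} (hn : 2 ≤ n) : Summable fun k : ℕ => 1 / ((k : ℝ) + 1) ^ n := by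
  have h := (summable_nat_add_iff 1).2 (Real.summable_one_div_nat_pow (p := n).2 (by omega))
  refine h.congr fun k => ?_
  push_cast
  rfl

theorem zeta_lower {n : ℕ} (hn : 2 ≤ n) : 1 + 1 / (2 : ℝ) ^ n ≤ zeta n := by
  have h := (zeta_summable hn).sum_le_tsum (Finset.range 2) (fun k _ => by positivity)
  rw [Finset.sum_range_succ, Finset.sum_range_one] at h
  unfold zeta
  refine le_trans (le_of_eq ?_) h
  norm_num

theorem zeta_upper {n : ℕ} (hn : 2 ≤ n) : zeta n ≤ 1 + 4 / (2 : ℝ) ^ n := by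
  have h1 := (zeta_summable hn).sum_add_tsum_nat_add 1
  rw [Finset.sum_range_one] at h1
  have h2 : ∑' k : ℕ, 1 / (((k + 1 : ℕ) : ℝ) + 1) ^ n ≤ ∑' k : ℕ, 4 / (2 : ℝ) ^ n * (1 / (((k + 1 : ℕ) : ℝ) + 1) ^ 2) := by
    refine ((summable_nat_add_iff 1).2 (zeta_summable hn)).tsum_le_tsum ?_
      (((summable_nat_add_iff 1).2 (zeta_summable le_rfl)).mul_left _)
    intro k
    obtain ⟨r, rfl⟩ := Nat.exists_eq_add_of_le hn
    have h3 : (2 : ℝ) ≤ ((k + 1 : ℕ) : ℝ) + 1 := by
      push_cast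
      have : (0 : ℝ) ≤ k := Nat.cast_nonneg k
      linarith
    have h4 : (2 : ℝ) ^ r ≤ (((k + 1 : ℕ) : ℝ) + 1) ^ r := pow_le_pow_left₀ (by norm_num) h3 r
    have h5 : (0 : ℝ) < ((k + 1 : ℕ) : ℝ) + 1 := by linarith
    rw [pow_add, pow_add, div_mul_div_comm, div_le_div_iff₀ (by positivity) (by positivity)]
    have h6 : 0 ≤ (((k + 1 : ℕ) : ℝ) + 1) ^ 2 := by positivity
    nlinarith
  rw [tsum_mul_left] at h2
  have h3 : ∑' k : ℕ, 1 / (((k + 1 : ℕ) : ℝ) + 1) ^ 2 ≤ 1 := by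
    have h4 := (zeta_summable (le_refl 2)).sum_add_tsum_nat_add 1
    rw [Finset.sum_range_one] at h4
    have h5 : ∑' k : ℕ, 1 / ((k : ℝ) + 1) ^ 2 = Real.pi ^ 2 / 6 := by
      have h6 := hasSum_zeta_two.summable.sum_add_tsum_nat_add 1
      rw [Finset.sum_range_one, hasSum_zeta_two.tsum_eq] at h6
      rw [← h6]
      simp
    have h6 := Real.pi_lt_d2
    have h7 := Real.pi_pos
    have h8 : Real.pi ^ 2 ≤ 12 := by nlinarith
    rw [h5] at h4
    norm_num at h4 ⊢
    linarith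
  unfold zeta
  rw [← h1]
  have h4 : (0 : ℝ) ≤ 4 / (2 : ℝ) ^ n := by positivity
  have h5 : 1 / (((0 : ℕ) : ℝ) + 1) ^ n = 1 := by norm_num
  rw [h5]
  nlinarith


theorem zeta_zpow {n : ℕ} (hn : 2 ≤ n) (e : ℤ) : |zeta n ^ e| ≤ 2 ^ e.natAbs := by
  have h1 := zeta_lower hn
  have h2 := zeta_upper hn
  have h3 : 4 / (2 : ℝ) ^ n ≤ 1 := by
    rw [div_le_one (by positivity)]
    calc (4 : ℝ) = 2 ^ 2 := by norm_num
      _ ≤ 2 ^ n := pow_le_pow_right₀ (by norm_num) hn
  have h4 : (0 : ℝ) < 1 / (2 : ℝ) ^ n := by positivity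
  have hz1 : 1 ≤ zeta n := by linarith
  have hz2 : zeta n ≤ 2 := by linarith
  rw [abs_of_nonneg (zpow_nonneg (by linarith) _)]
  rcases le_or_gt 0 e with he | he
  · obtain ⟨k, rfl⟩ := Int.eq_ofNat_of_zero_le he
    rw [zpow_natCast, Int.natAbs_natCast]
    exact pow_le_pow_left₀ (by linarith) hz2 k
  · calc zeta n ^ e ≤ 1 := zpow_le_one_of_nonpos₀ hz1 he.le
      _ ≤ 2 ^ e.natAbs := one_le_pow₀ (by norm_num)

/-- the monomials are bounded -/
theorem monomial_bound {A h : ℕ} (e : Fin A → Fin h → ℤ) {n : ℕ} (hn : 2 ≤ n) :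
    |monomial e n| ≤ ∏ a : Fin A, ∏ b : Fin h, (2 : ℝ) ^ (e a b).natAbs := by
  unfold monomial
  rw [Finset.abs_prod]
  refine Finset.prod_le_prod (fun _ _ => abs_nonneg _) fun a _ => ?_
  rw [Finset.abs_prod]
  refine Finset.prod_le_prod (fun _ _ => abs_nonneg _) fun b _ => ?_
  apply zeta_zpow
  have : 1 * n ≤ ((a : ℕ) + 1) * n := Nat.mul_le_mul_right n (Nat.le_add_left 1 _)
  omega

open Pool.Agent.TH507.ZS Pool.Agent.Y760.ST in
/-- Schmidt's theorem for the monomials -/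
theorem schmidt {l A h r : ℕ} (β : Fin (l + 1) → ℝ) (hβ : ∀ j, IsAlgebraic ℚ (β j))
    (hβi : LinearIndependent ℚ β) (e : Fin (r + 1) → Fin A → Fin h → ℤ)
    (he : Function.Injective e) :
    ∃ D : ℝ, 1 < D ∧ ∀ C B : ℝ, 1 < B → ∃ n0 : ℕ, ∀ n : ℕ, n0 ≤ n → ∀ H : ℝ, D ^ n ≤ H →
      H ≤ C ^ n → ∀ q : Fin (l + 1) → Fin (r + 1) → ℤ, q ≠ 0 → (∀ j i, |(q j i : ℝ)| ≤ H) →
        1 / (H ^ ((l + 1) * (r + 1) - 1) * B ^ n) <
          |∑ j, ∑ i, (q j i : ℝ) * (β j * monomial (e i) n)| := by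
  obtain ⟨D, hD, hmain⟩ := gbMain zQ mQ zQ_mult mQ_mult zQ_pb mQ_pb zQ_mul_mQ 1 one_ne_zero
    (fun p hp => zQ_apply hp.ne_zero) (fun p hp => by
      rw [mQ, ArithmeticFunction.intCoe_apply, ArithmeticFunction.moebius_apply_prime hp]
      norm_num) β hβ hβi e he
  refine ⟨D, hD, fun C B hB => ?_⟩
  obtain ⟨n0, hn0⟩ := hmain C B hB
  refine ⟨n0, fun n hn H hH1 hH2 q hq hqH => ?_⟩
  have h1 := hn0 n hn H hH1 hH2 q hq hqH
  unfold monomial
  simp only [dser_eq_zeta] at h1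
  exact h1

/-- **Joint uniform distribution of the multiples of the monomials in the numbers `ζ(a n + b)`.** -/
theorem result {l A h r s : ℕ} (β : Fin (l + 1) → ℝ) (hβ : ∀ j, IsAlgebraic ℚ (β j)) (hβ0 : β 0 = 1)
    (hβi : LinearIndependent ℚ β) (e : Fin (r + 1) → Fin A → Fin h → ℤ) (he : Function.Injective e) (he0 : e 0 = 0)
    (f : Fin s → Fin (l + 1) × Fin (r + 1)) (hf : Function.Injective f) (hf0 : ∀ k, f k ≠ (0, 0)) (hs : 1 ≤ s) :
    ∃ D : ℝ, 1 < D ∧ ∀ (C : ℝ) (K : ℕ), 1 ≤ C → ∃ κ : ℝ, 0 < κ ∧ ∃ n0 : ℕ, ∀ n : ℕ, n0 ≤ n → ∀ M : ℕ,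
      D ^ n ≤ (M : ℝ) → (M : ℝ) ≤ C ^ n → Joint κ K M (fun k => β (f k).1 * monomial (e (f k).2) n) := by
  obtain ⟨D₀, hD₀, hS⟩ := schmidt β hβ hβi e he
  obtain ⟨L, hL⟩ : ∃ L : ℕ, L = (l + 1) * (r + 1) := ⟨_, rfl⟩
  have hL1 : 1 ≤ L := by rw [hL]; exact Nat.mul_pos (by omega) (by omega)
  have hLR : (1 : ℝ) ≤ L := by exact_mod_cast hL1
  rw [← hL] at hS
  obtain ⟨D, hDE⟩ : ∃ D : ℝ, D = (2 * D₀ ^ L) ^ 4 := ⟨_, rfl⟩
  have hD₀0 : 0 < D₀ := by linarith
  have h2D : 2 ≤ 2 * D₀ ^ L := by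
    have := one_le_pow₀ hD₀.le (n := L)
    linarith
  have hD1 : 1 < D := by
    rw [hDE]
    exact one_lt_pow₀ (by linarith) (by norm_num)
  refine ⟨D, hD1, fun C K hC => ?_⟩
  obtain ⟨δ, hδE⟩ : ∃ δ : ℝ, δ = 1 / (8 * L) := ⟨_, rfl⟩
  have hδ : 0 < δ := by rw [hδE]; positivity
  have hδ8 : δ ≤ 1 / 8 := by
    rw [hδE]
    apply one_div_le_one_div_of_le (by norm_num)
    linarith
  have hδL : 3 * δ * L = 3 / 8 := by
    rw [hδE]
    field_simp
  obtain ⟨κ, hκ, M₀, hM₀, hjoint⟩ := Pool.Agent.Q29.Eqd.joint_point s hs K δ hδ (by linarith)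
  obtain ⟨X, hX⟩ : ∃ X : ℝ, X = ∑ k, |β (f k).1| * ∏ a : Fin A, ∏ b : Fin h, (2 : ℝ) ^ (e (f k).2 a b).natAbs := ⟨_, rfl⟩
  obtain ⟨n0, hn0⟩ := hS (max C D₀) 2 (by norm_num)
  have hlim : Filter.Tendsto (fun n : ℕ => D ^ n) Filter.atTop Filter.atTop := tendsto_pow_atTop_atTop_of_one_lt hD1
  obtain ⟨n1, hn1⟩ := (Filter.eventually_atTop.1 (hlim.eventually_ge_atTop (M₀ : ℝ)))
  have hlim2 : Filter.Tendsto (fun n : ℕ => (D ^ n) ^ δ) Filter.atTop Filter.atTop :=
    (tendsto_rpow_atTop hδ).comp hlim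
  obtain ⟨n2, hn2⟩ := (Filter.eventually_atTop.1 (hlim2.eventually_ge_atTop (s * X + 1)))
  refine ⟨κ, hκ, n0 + n1 + n2 + 2, fun n hn M hDM hMC => ?_⟩
  have hM1 : (1 : ℝ) ≤ M := (one_le_pow₀ hD1.le).trans hDM
  have hM0 : (0 : ℝ) < M := by linarith
  rw [joint_iff]
  refine hjoint M (by exact_mod_cast (hn1 n (by omega)).trans hDM) _ X (fun k => ?_) ?_ ?_
  · rw [abs_mul, hX]
    calc |β (f k).1| * |monomial (e (f k).2) n| ≤
          |β (f k).1| * ∏ a : Fin A, ∏ b : Fin h, (2 : ℝ) ^ (e (f k).2 a b).natAbs :=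
          mul_le_mul_of_nonneg_left (monomial_bound _ (by omega)) (abs_nonneg _)
      _ ≤ _ := Finset.single_le_sum (f := fun k => |β (f k).1| * ∏ a : Fin A, ∏ b : Fin h,
            (2 : ℝ) ^ (e (f k).2 a b).natAbs) (fun k _ => by positivity) (mem_univ k)
  · exact (hn2 n (by omega)).trans (Real.rpow_le_rpow (by positivity) hDM hδ.le)
  · intro v a hv hvM haM
    classical
    obtain ⟨Q, hQ⟩ : ∃ Q : Fin (l + 1) → Fin (r + 1) → ℤ,
      Q = fun j i => if (j, i) = ((0, 0) : Fin (l + 1) × Fin (r + 1)) then -a else ∑ k, if f k = (j, i) then v k else 0 :=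
      ⟨_, rfl⟩
    have hQf : ∀ k, Q (f k).1 (f k).2 = v k := by
      intro k
      rw [hQ]
      simp only
      rw [if_neg (hf0 k), Finset.sum_eq_single k]
      · rw [if_pos rfl]
      · intro k' _ hne
        rw [if_neg]
        intro h1
        exact hne (hf h1)
      · intro h1
        exact absurd (mem_univ k) h1
    have hQ0 : Q ≠ 0 := by
      intro h0
      apply hv
      funext k
      rw [← hQf k, h0]
      rfl
    have hM3 : 1 ≤ (M : ℝ) ^ (3 * δ) := Real.one_le_rpow hM1 (by linarith)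
    have hQle : ∀ j i, |(Q j i : ℝ)| ≤ (M : ℝ) ^ (3 * δ) := by
      intro j i
      rw [hQ]
      simp only
      split_ifs with h1
      · push_cast
        rw [abs_neg]
        exact haM
      · by_cases h2 : ∃ k, f k = (j, i)
        · obtain ⟨k, hk⟩ := h2
          rw [Finset.sum_eq_single k, if_pos hk]
          · exact hvM k
          · intro k' _ hne
            rw [if_neg]
            intro h3
            exact hne (hf (h3.trans hk.symm))
          · intro h3
            exact absurd (mem_univ k) h3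
        · push Not at h2
          rw [Finset.sum_eq_zero fun k _ => if_neg (h2 k)]
          simp only [Int.cast_zero, abs_zero]
          linarith
    have hsum : ∑ j, ∑ i, (Q j i : ℝ) * (β j * monomial (e i) n) =
        ∑ k, (v k : ℝ) * (β (f k).1 * monomial (e (f k).2) n) - a := by
      have h1 : ∀ j i, (Q j i : ℝ) * (β j * monomial (e i) n) =
          (∑ k, if f k = (j, i) then (v k : ℝ) * (β j * monomial (e i) n) else 0) +
          (if (j, i) = ((0, 0) : Fin (l + 1) × Fin (r + 1)) then -(a : ℝ) * (β j * monomial (e i) n) else 0) := by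
        intro j i
        rw [hQ]
        simp only
        split_ifs with h1
        · rw [Finset.sum_eq_zero fun k _ => if_neg (fun h2 => hf0 k (h2.trans h1)), zero_add]
          push_cast
          rfl
        · rw [add_zero]
          push_cast
          rw [Finset.sum_mul]
          refine Finset.sum_congr rfl fun k _ => ?_
          split_ifs <;> simp
      simp only [h1, Finset.sum_add_distrib]
      have h2 : ∑ j, ∑ i, ∑ k, (if f k = (j, i) then (v k : ℝ) * (β j * monomial (e i) n) else 0) =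
          ∑ k, (v k : ℝ) * (β (f k).1 * monomial (e (f k).2) n) := by
        have h3 : ∑ j, ∑ i, ∑ k, (if f k = (j, i) then (v k : ℝ) * (β j * monomial (e i) n) else 0) =
            ∑ k, ∑ j, ∑ i, (if f k = (j, i) then (v k : ℝ) * (β j * monomial (e i) n) else 0) := by
          exact (Finset.sum_congr rfl fun j _ => Finset.sum_comm).trans Finset.sum_comm
        rw [h3]
        refine Finset.sum_congr rfl fun k _ => ?_
        rw [Finset.sum_eq_single (f k).1, Finset.sum_eq_single (f k).2, if_pos rfl]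
        · intro i _ hne
          rw [if_neg]
          intro h4
          exact hne (by rw [h4])
        · intro h4
          exact absurd (mem_univ _) h4
        · intro j _ hne
          refine Finset.sum_eq_zero fun i _ => if_neg ?_
          intro h4
          exact hne (by rw [h4])
        · intro h4
          exact absurd (mem_univ _) h4
      have h3 : ∑ j, ∑ i, (if (j, i) = ((0, 0) : Fin (l + 1) × Fin (r + 1)) then
          -(a : ℝ) * (β j * monomial (e i) n) else 0) = -a := by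
        rw [Finset.sum_eq_single 0, Finset.sum_eq_single 0, if_pos rfl, hβ0, he0]
        · simp [monomial]
        · intro i _ hne
          rw [if_neg]
          intro h4
          exact hne (Prod.ext_iff.1 h4).2
        · intro h4
          exact absurd (mem_univ _) h4
        · intro j _ hne
          refine Finset.sum_eq_zero fun i _ => if_neg ?_
          intro h4
          exact hne (Prod.ext_iff.1 h4).1
        · intro h4
          exact absurd (mem_univ _) h4
      rw [h2, h3]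
      ring
    -- the height
    obtain ⟨H, hH⟩ : ∃ H : ℝ, H = max (D₀ ^ n) ((M : ℝ) ^ (3 * δ)) := ⟨_, rfl⟩
    have hMC' : (M : ℝ) ^ (3 * δ) ≤ (max C D₀) ^ n := by
      calc (M : ℝ) ^ (3 * δ) ≤ (M : ℝ) ^ (1 : ℝ) := Real.rpow_le_rpow_of_exponent_le hM1 (by linarith)
        _ = M := Real.rpow_one _
        _ ≤ C ^ n := hMC
        _ ≤ _ := pow_le_pow_left₀ (by linarith) (le_max_left _ _) n
    have hbound := hn0 n (by omega) H (by rw [hH]; exact le_max_left _ _) (by
      rw [hH]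
      exact max_le (pow_le_pow_left₀ hD₀0.le (le_max_right _ _) n) hMC') Q hQ0 (fun j i =>
        (hQle j i).trans (by rw [hH]; exact le_max_right _ _))
    rw [hsum] at hbound
    refine lt_of_le_of_lt ?_ hbound
    have hH1 : 1 ≤ H := by rw [hH]; exact hM3.trans (le_max_right _ _)
    have h2n : ((2 * D₀ ^ L) ^ n) ≤ (M : ℝ) ^ (1 / 4 : ℝ) := by
      have h1 : (((2 * D₀ ^ L) ^ n : ℝ)) = (D ^ n) ^ (1 / 4 : ℝ) := by
        rw [hDE, ← pow_mul, mul_comm 4 n, pow_mul, ← Real.rpow_natCast _ 4, ← Real.rpow_mul (by positivity)]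
        norm_num
      rw [h1]
      exact Real.rpow_le_rpow (by positivity) hDM (by norm_num)
    have h3 : H ^ (L - 1) * 2 ^ n ≤ (M : ℝ) ^ (1 - δ) := by
      have h4 : H ^ (L - 1) ≤ H ^ L := pow_le_pow_right₀ hH1 (by omega)
      have h5 : H ^ L * 2 ^ n ≤ (M : ℝ) ^ (5 / 8 : ℝ) := by
        rcases max_choice (D₀ ^ n) ((M : ℝ) ^ (3 * δ)) with h6 | h6
        · rw [hH, h6]
          calc (D₀ ^ n) ^ L * 2 ^ n = (2 * D₀ ^ L) ^ n := by
                rw [mul_pow, ← pow_mul, ← pow_mul, mul_comm n L]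
                ring
            _ ≤ (M : ℝ) ^ (1 / 4 : ℝ) := h2n
            _ ≤ (M : ℝ) ^ (5 / 8 : ℝ) := Real.rpow_le_rpow_of_exponent_le hM1 (by norm_num)
        · rw [hH, h6]
          have h7 : ((M : ℝ) ^ (3 * δ)) ^ L = (M : ℝ) ^ (3 / 8 : ℝ) := by
            rw [← Real.rpow_natCast, ← Real.rpow_mul hM0.le, hδL]
          have h8 : (2 : ℝ) ^ n ≤ (M : ℝ) ^ (1 / 4 : ℝ) := (pow_le_pow_left₀ (by norm_num) h2D n).trans h2n
          rw [h7]
          calc (M : ℝ) ^ (3 / 8 : ℝ) * 2 ^ n ≤ (M : ℝ) ^ (3 / 8 : ℝ) * (M : ℝ) ^ (1 / 4 : ℝ) :=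
                mul_le_mul_of_nonneg_left h8 (by positivity)
            _ = (M : ℝ) ^ (5 / 8 : ℝ) := by
                rw [← Real.rpow_add hM0]
                norm_num
      calc H ^ (L - 1) * 2 ^ n ≤ H ^ L * 2 ^ n := mul_le_mul_of_nonneg_right h4 (by positivity)
        _ ≤ (M : ℝ) ^ (5 / 8 : ℝ) := h5
        _ ≤ (M : ℝ) ^ (1 - δ) := Real.rpow_le_rpow_of_exponent_le hM1 (by linarith)
    have h4 : (M : ℝ) ^ (δ - 1) = 1 / (M : ℝ) ^ (1 - δ) := by
      rw [one_div, ← Real.rpow_neg hM0.le]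
      congr 1
      ring
    rw [h4]
    exact one_div_le_one_div_of_le (by positivity) h3

end Pool.Agent.Results.MP_f1a024_nt.JointMonomials
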