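import Mathlib
import Pool.Agent.Q29.EqRoth
import Pool.Agent.Y760.RT.Ser

/-!
# Uniform distribution of the multiples of `ζ(2n)/ζ(n)²` along the primes: the threshold `2 ^ n`

Let `t(n) = ζ(2n)/ζ(n)²`. If `t(n)` is rational with denominator `q`, then its multiples by the integers up to `M`, by their
powers or by the primes up to `M` are not uniformly distributed modulo one for `M` large in terms of `q`. We show that they are
uniformly distributed with a power saving for all `M` between two exponentials in `n`: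

(1) Let `D > 2`, `C` and `K` be given. There is `κ > 0` such that for all large `n` and all `M` with `D ^ n ≤ M ≤ C ^ n` the
multiples of `t(n)` by the integers up to `M`, by their `k`-th powers for `k ≤ K` (even with a real polynomial of degree less
than `k` added), and by the primes up to `M` in each residue class modulo `d ≤ M ^ κ`, are uniformly distributed modulo
one with an error `M ^ (1 - κ)`. The same holds for `β t(n)`, for every real algebraic number `β ≠ 0`.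

(2) The condition `D > 2` is sharp: for `1 < D < 2` and large `n` all the numbers `m t(n)`, `1 ≤ m ≤ D ^ n`, have fractional
parts in `[1/2, 1)`.

(3) For irrational `β` the multiples of `β t(n)` are uniformly distributed in this sense for all `D > 1`.

The proof uses Roth's theorem for the values of Dirichlet series at large integers (starting files `Y760/RT`, `TH507/ZS`),
an inverse theorem for the sums of Weyl and a form of the estimate of Vinogradov for the sums over primes with a power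
saving (`H373R2/NB`, `W110/HV`).
-/

set_option autoImplicit false

namespace Pool.Agent.Results.MP_f1a024_nt.MultiplesAlongPrimes

open Finset Polynomial

/-- The multiples of `x` are uniformly distributed at the scale `M`, with a power saving, along all polynomials of degree
at most `K` and along the primes of all residue classes:

* for every nonzero integer `b` with `|b| ≤ M ^ κ`, every `1 ≤ k ≤ K` and every real polynomial `R` of degree less than
  `k`, the number of `0 ≤ n < M` with the fractional part of `b x n ^ k + R(n)` in `[u, v)` is `(v - u) M` up to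
  `M ^ (1 - κ)`, for all `0 ≤ u ≤ v ≤ 1`;
* for every such `b`, every `1 ≤ d ≤ M ^ κ`, every `r` and every real `β`, the number of primes `p ≤ M` with
  `p ≡ r (mod d)` and the fractional part of `b x p + β` in `[u, v)` is `(v - u)` times the number of all the primes
  `p ≤ M` with `p ≡ r (mod d)`, up to `M ^ (1 - κ)`. -/
def Good (κ : ℝ) (K M : ℕ) (x : ℝ) : Prop :=
  (∀ b : ℤ, b ≠ 0 → |(b : ℝ)| ≤ (M : ℝ) ^ κ → ∀ k : ℕ, 1 ≤ k → k ≤ K → ∀ R : ℝ[X], R.degree < k →
    ∀ u v : ℝ, 0 ≤ u → u ≤ v → v ≤ 1 →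
      |(((range M).filter fun n : ℕ => u ≤ Int.fract (b * x * (n : ℝ) ^ k + R.eval (n : ℝ)) ∧
          Int.fract (b * x * (n : ℝ) ^ k + R.eval (n : ℝ)) < v).card : ℝ) - (v - u) * M| ≤
        (M : ℝ) ^ (1 - κ)) ∧
  (∀ b : ℤ, b ≠ 0 → |(b : ℝ)| ≤ (M : ℝ) ^ κ → ∀ d r : ℕ, 1 ≤ d → (d : ℝ) ≤ (M : ℝ) ^ κ → ∀ β : ℝ,
    ∀ u v : ℝ, 0 ≤ u → u ≤ v → v ≤ 1 →
      |(((range (M + 1)).filter fun p : ℕ => (p.Prime ∧ p ≡ r [MOD d]) ∧
          (u ≤ Int.fract (b * x * p + β) ∧ Int.fract (b * x * p + β) < v)).card : ℝ) -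
        (v - u) * ((range (M + 1)).filter fun p : ℕ => p.Prime ∧ p ≡ r [MOD d]).card| ≤
        (M : ℝ) ^ (1 - κ))

/-- `ζ(n) = ∑ 1 / k ^ n` -/
noncomputable def zeta (n : ℕ) : ℝ := ∑' k : ℕ, 1 / ((k : ℝ) + 1) ^ n

/-- `t(n) = ζ(2n) / ζ(n) ^ 2` -/
noncomputable def t (n : ℕ) : ℝ := zeta (2 * n) / zeta n ^ 2

theorem good_iff (κ : ℝ) (K M : ℕ) (x : ℝ) : Good κ K M x ↔ Pool.Agent.Q29.Eqd.Good κ K M x := Iff.rfl

open Pool.Agent.TH507.ZS Pool.Agent.Y760.RT in
theorem dser_eq_zeta (n : ℕ) : dser zQ n = zeta n := by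
  unfold dser zeta
  refine tsum_congr fun k => ?_
  rw [zQ_apply (by omega)]
  push_cast
  rfl

theorem zeta_summable {n : ℕ} (hn : 2 ≤ n) : Summable fun k : ℕ => 1 / ((k : ℝ) + 1) ^ n := by
  have h := (summable_nat_add_iff 1).2 (Real.summable_one_div_nat_pow (p := n).2 (by omega))
  refine h.congr fun k => ?_
  push_cast
  rfl

theorem zeta_lower {n : ℕ} (hn : 2 ≤ n) : 1 + 1 / (2 : ℝ) ^ n ≤ zeta n := by
  have h := (zeta_summable hn).sum_le_tsum (Finset.range 2) (fun k _ => by positivity)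
  rw [Finset.sum_range_succ, Finset.sum_range_one] at h
  unfold zeta
  refine le_trans (le_of_eq ?_) h
  norm_num

theorem zeta_upper {n : ℕ} (hn : 2 ≤ n) : zeta n ≤ 1 + 4 / (2 : ℝ) ^ n := by
  have h1 := (zeta_summable hn).sum_add_tsum_nat_add 1
  rw [Finset.sum_range_one] at h1
  have h2 : ∑' k : ℕ, 1 / (((k + 1 : ℕ) : ℝ) + 1) ^ n ≤ ∑' k : ℕ, 4 / (2 : ℝ) ^ n * (1 / (((k + 1 : ℕ) : ℝ) + 1) ^ 2) := by
    refine ((summable_nat_add_iff 1).2 (zeta_summable hn)).tsum_le_tsum ?_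
      (((summable_nat_add_iff 1).2 (zeta_summable le_rfl)).mul_left _)
    intro k
    obtain ⟨r, rfl⟩ := Nat.exists_eq_add_of_le hn
    have h3 : (2 : ℝ) ≤ ((k + 1 : ℕ) : ℝ) + 1 := by
      push_cast
      have : (0 : ℝ) ≤ k := Nat.cast_nonneg k
      linarith
    have h4 : (2 : ℝ) ^ r ≤ (((k + 1 : ℕ) : ℝ) + 1) ^ r := pow_le_pow_left₀ (by norm_num) h3 r
    have h5 : (0 : ℝ) < ((k + 1 : ℕ) : ℝ) + 1 := by linarith
    rw [pow_add, pow_add, div_mul_div_comm, div_le_div_iff₀ (by positivity) (by positivity)]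
    have h6 : 0 ≤ (((k + 1 : ℕ) : ℝ) + 1) ^ 2 := by positivity
    nlinarith
  rw [tsum_mul_left] at h2
  have h3 : ∑' k : ℕ, 1 / (((k + 1 : ℕ) : ℝ) + 1) ^ 2 ≤ 1 := by
    have h4 := (zeta_summable (le_refl 2)).sum_add_tsum_nat_add 1
    rw [Finset.sum_range_one] at h4
    have h5 : ∑' k : ℕ, 1 / ((k : ℝ) + 1) ^ 2 = Real.pi ^ 2 / 6 := by
      have h6 := hasSum_zeta_two.summable.sum_add_tsum_nat_add 1
      rw [Finset.sum_range_one, hasSum_zeta_two.tsum_eq] at h6
      rw [← h6]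
      simp
    have h6 := Real.pi_lt_d2
    have h7 := Real.pi_pos
    have h8 : Real.pi ^ 2 ≤ 12 := by nlinarith
    rw [h5] at h4
    norm_num at h4 ⊢
    linarith
  unfold zeta
  rw [← h1]
  have h4 : (0 : ℝ) ≤ 4 / (2 : ℝ) ^ n := by positivity
  have h5 : 1 / (((0 : ℕ) : ℝ) + 1) ^ n = 1 := by norm_num
  rw [h5]
  nlinarith

theorem t_bounds {n : ℕ} (hn : 2 ≤ n) : 1 / 4 / (2 : ℝ) ^ n ≤ 1 - t n ∧ 1 - t n ≤ 8 / (2 : ℝ) ^ n := by
  have h1 := zeta_lower hn
  have h2 := zeta_upper hn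
  have h3 := zeta_lower (show 2 ≤ 2 * n by omega)
  have h0 : (0 : ℝ) < 1 / (2 : ℝ) ^ n := by positivity
  have h0' : (0 : ℝ) < 1 / (2 : ℝ) ^ (2 * n) := by positivity
  have h4 : (4 : ℝ) ≤ 2 ^ n := by
    calc (4 : ℝ) = 2 ^ 2 := by norm_num
      _ ≤ 2 ^ n := pow_le_pow_right₀ (by norm_num) hn
  have h5 : zeta (2 * n) ≤ zeta n := by
    unfold zeta
    refine (zeta_summable (by omega)).tsum_le_tsum (fun k => ?_) (zeta_summable hn)
    apply one_div_le_one_div_of_le (by positivity)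
    apply pow_le_pow_right₀ _ (by omega)
    have : (0 : ℝ) ≤ k := Nat.cast_nonneg k
    linarith
  have h6 : 4 / (2 : ℝ) ^ n ≤ 1 := by
    rw [div_le_one (by positivity)]
    exact h4
  have hz1 : 1 ≤ zeta n := by linarith
  have hz2 : zeta n ≤ 2 := by linarith
  have hz0 : 0 < zeta n := by linarith
  unfold t
  constructor
  · have h7 : zeta (2 * n) / zeta n ^ 2 ≤ 1 / zeta n := by
      rw [div_le_div_iff₀ (by positivity) hz0]
      nlinarith
    have h8 : 1 / 4 / (2 : ℝ) ^ n ≤ 1 - 1 / zeta n := by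
      have e1 : 1 - 1 / zeta n = (zeta n - 1) / zeta n := by field_simp
      rw [e1, le_div_iff₀ hz0]
      have h9 : 1 / 4 / (2 : ℝ) ^ n * zeta n ≤ 1 / 4 / (2 : ℝ) ^ n * 2 :=
        mul_le_mul_of_nonneg_left hz2 (by positivity)
      have e2 : 1 / 4 / (2 : ℝ) ^ n * 2 = 1 / 2 * (1 / (2 : ℝ) ^ n) := by ring
      rw [e2] at h9
      linarith
    linarith
  · have h7 : 1 / zeta n ^ 2 ≤ zeta (2 * n) / zeta n ^ 2 := by
      apply div_le_div_of_nonneg_right _ (by positivity)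
      linarith
    have h8 : 1 - 1 / zeta n ^ 2 ≤ 2 * (zeta n - 1) := by
      have e1 : 1 - 1 / zeta n ^ 2 = (zeta n ^ 2 - 1) / zeta n ^ 2 := by field_simp
      rw [e1, div_le_iff₀ (by positivity)]
      nlinarith [mul_nonneg (sub_nonneg.2 hz1) (sub_nonneg.2 hz1), mul_nonneg (sub_nonneg.2 hz1) hz0.le,
        mul_nonneg (mul_nonneg (sub_nonneg.2 hz1) (sub_nonneg.2 hz1)) hz0.le]
    have e3 : 8 / (2 : ℝ) ^ n = 2 * (4 / (2 : ℝ) ^ n) := by ring
    rw [e3]
    linarith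

open Pool.Agent.TH507.ZS Pool.Agent.Y760.RT in
/-- Roth's theorem for `β t(n)` -/
theorem roth (β : ℝ) (hβ : IsAlgebraic ℚ β) (hβ0 : β ≠ 0) (C B : ℝ) (hB : 1 < B) :
    ∃ n0 : ℕ, ∀ n : ℕ, n0 ≤ n → ∀ p q : ℤ, 1 ≤ q → (q : ℝ) ≤ C ^ n → (p : ℝ) / q ≠ β →
      1 / ((q : ℝ) ^ 2 * B ^ n) < |β * t n - p / q| := by
  obtain ⟨A, hA⟩ := tQ_pb
  have h1 : tQ 1 = 1 := tQ_mult.1
  obtain ⟨n0, hn0⟩ := mainQ hA (fun h hh => by
    obtain ⟨k, h1, h2, h3, h4⟩ := exists_prime_coprime hh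
    refine ⟨k, h1, h2, h3, ?_⟩
    rw [tQ_prime h4]
    norm_num) β hβ hβ0 C B hB
  obtain ⟨n1, hn1⟩ := dser_t
  refine ⟨n0 + n1 + 3, fun n hn p q hq hqC hpq => ?_⟩
  have h2 := hn0 n (by omega) p q hq hqC (by rwa [h1, Rat.cast_one, mul_one])
  rw [hn1 n (by omega), dser_eq_zeta, dser_eq_zeta] at h2
  exact h2

/-- **Uniform distribution of the multiples of `t(n) = ζ(2n)/ζ(n)²` at the scales `M ≥ D ^ n`.** -/
theorem result :
    (∀ β : ℝ, IsAlgebraic ℚ β → β ≠ 0 → ∀ (K : ℕ) (D C : ℝ), 2 < D ∨ (1 < D ∧ Irrational β) → 0 ≤ C →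
      ∃ κ : ℝ, 0 < κ ∧ ∃ n0 : ℕ, ∀ n : ℕ, n0 ≤ n → ∀ M : ℕ, D ^ n ≤ (M : ℝ) → (M : ℝ) ≤ C ^ n →
        Good κ K M (β * t n)) ∧
    (∀ D : ℝ, 0 ≤ D → D < 2 → ∃ n0 : ℕ, ∀ n : ℕ, n0 ≤ n → ∀ m : ℕ, 1 ≤ m → (m : ℝ) ≤ D ^ n →
      1 / 2 ≤ Int.fract ((m : ℝ) * t n)) := by
  constructor
  · intro β hβ hβ0 K D C hD hC
    rcases hD with hD | ⟨hD, hirr⟩
    · refine Pool.Agent.Q29.Eqd.roth_good (fun n => β * t n) β 2 (by norm_num) (roth β hβ hβ0) (Or.inr ?_) K D C hD hC
      refine ⟨|β| * (1 / 4), by positivity, 2, fun n hn => ?_⟩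
      have h1 := (t_bounds hn).1
      have e1 : β * t n - β = -(β * (1 - t n)) := by ring
      rw [e1, abs_neg, abs_mul, mul_div_assoc]
      apply mul_le_mul_of_nonneg_left _ (abs_nonneg β)
      exact h1.trans (le_abs_self _)
    · refine Pool.Agent.Q29.Eqd.roth_good (fun n => β * t n) β 1 le_rfl (roth β hβ hβ0) (Or.inl ?_) K D C hD hC
      intro p q hq heq
      apply hirr
      exact ⟨(p : ℚ) / q, by push_cast; exact heq⟩
  · intro D hD0 hD
    have hlim : Filter.Tendsto (fun n : ℕ => (D / 2) ^ n) Filter.atTop (nhds 0) :=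
      tendsto_pow_atTop_nhds_zero_of_lt_one (by positivity) (by linarith)
    obtain ⟨n1, hn1⟩ := Filter.eventually_atTop.1 (hlim.eventually_lt_const (show (0 : ℝ) < 1 / 16 by norm_num))
    refine ⟨max n1 2, fun n hn m hm hmD => ?_⟩
    have h1 := hn1 n ((le_max_left _ _).trans hn)
    have h2 := t_bounds (n := n) ((le_max_right _ _).trans hn)
    have hm1 : (1 : ℝ) ≤ m := by exact_mod_cast hm
    have h3 : (m : ℝ) * (1 - t n) ≤ 1 / 2 := by
      calc (m : ℝ) * (1 - t n) ≤ D ^ n * (8 / (2 : ℝ) ^ n) :=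
            mul_le_mul hmD h2.2 (le_trans (by positivity) h2.1) (by positivity)
        _ = 8 * (D / 2) ^ n := by rw [div_pow]; ring
        _ ≤ 1 / 2 := by linarith
    have h4 : 0 < (m : ℝ) * (1 - t n) := by
      apply mul_pos (by linarith)
      exact lt_of_lt_of_le (by positivity) h2.1
    have e1 : (m : ℝ) * t n = ((m - 1 : ℤ) : ℝ) + (1 - (m : ℝ) * (1 - t n)) := by
      push_cast
      ring
    rw [e1, Int.fract_intCast_add, Int.fract_eq_self.2 ⟨by linarith, by linarith⟩]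
    linarith

end Pool.Agent.Results.MP_f1a024_nt.MultiplesAlongPrimes
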