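import Mathlib
import Pool.Agent.Q47.DG.Abs
import Pool.Agent.Results.MP_f1a024_nt.MultiplesAlongPrimes

/-!
# Pairs from two dense sets and the numbers `t(n) = ζ(2n)/ζ(n)²`

For real algebraic `β ≠ 0` and `D > 2` (or `D > 1` if `β` is irrational), all large `n` and all the scales
`D ^ n ≤ M ≤ C ^ n`, the numbers `b β t(n) a ^ k c + R_c(a) + y_a` with `(a, c)` in the product of ANY two dense sets of
integers, arbitrary real numbers `y_a` and arbitrary real polynomials `R_c` of degree less than `k ≤ K` are uniformly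
distributed modulo one, with a power saving. In particular (`k = 1`) the multiples of `β t(n)` by the products `a c`. For
`β = 1` the threshold `2` cannot be lowered to a number less than `2`: all the multiples `m t(n)`, `m ≤ D ^ n`, have
fractional part at least `1/2` if `D < 2` and `n` is large (`MultiplesAlongPrimes` on this problem).

The proof uses Roth's theorem for the values of Dirichlet series at large integers (`Y760/RT`), an inverse theorem for the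
sums of Weyl (`H373R2/NB`) and a bilinear estimate (Cauchy-Schwarz in short blocks, `Pool/Agent/Q47/DG/EqdK`).
-/

set_option autoImplicit false

namespace Pool.Agent.Results.MP_f1a024_nt.PairsFromDenseSets

open Finset Polynomial

/-- Polynomials over two dense sets are uniformly distributed at the scale `M`, with a power saving: for all integers
`b ≠ 0` with `|b| ≤ M ^ κ`, all degrees `1 ≤ k ≤ K`, all integers `H ≥ M ^ η`, ALL sets `A` of integers in `[0, M)` and `B` of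
integers in `[0, H)` with `|A| |B| ≥ M ^ (1 - κ) H`, all real numbers `y_a`, all real polynomials `R_c` of degree less than
`k` and all `0 ≤ u ≤ v ≤ 1`, the number of the pairs `(a, c) ∈ A × B` with the fractional part of
`b x a ^ k c + R_c(a) + y_a` in `[u, v)` is `(v - u) |A| |B|`, up to `|A| |B| M ^ (-κ)`. -/
def PGood (K : ℕ) (η κ : ℝ) (M : ℕ) (x : ℝ) : Prop :=
  ∀ b : ℤ, b ≠ 0 → |(b : ℝ)| ≤ (M : ℝ) ^ κ → ∀ k : ℕ, 1 ≤ k → k ≤ K → ∀ H : ℕ, (M : ℝ) ^ η ≤ H →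
    ∀ A B : Finset ℕ, (∀ a ∈ A, a < M) → (∀ c ∈ B, c < H) → (M : ℝ) ^ (1 - κ) * H ≤ #A * #B →
    ∀ (y : ℕ → ℝ) (R : ℕ → ℝ[X]), (∀ c, (R c).degree < k) → ∀ u v : ℝ, 0 ≤ u → u ≤ v → v ≤ 1 →
      |(#{i ∈ A ×ˢ B | u ≤ Int.fract (b * x * i.1 ^ k * i.2 + (R i.2).eval (i.1 : ℝ) + y i.1) ∧
          Int.fract (b * x * i.1 ^ k * i.2 + (R i.2).eval (i.1 : ℝ) + y i.1) < v} : ℝ) -
        (v - u) * (#A * #B)| ≤ #A * #B * (M : ℝ) ^ (-κ)

theorem pgood_iff (K : ℕ) (η κ : ℝ) (M : ℕ) (x : ℝ) : PGood K η κ M x ↔ Pool.Agent.Q47.DG.PGood K η κ M x := Iff.rfl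

/-- `ζ(n) = ∑ 1 / k ^ n` -/
noncomputable def zeta (n : ℕ) : ℝ := ∑' k : ℕ, 1 / ((k : ℝ) + 1) ^ n

/-- `t(n) = ζ(2n) / ζ(n) ^ 2` -/
noncomputable def t (n : ℕ) : ℝ := zeta (2 * n) / zeta n ^ 2

theorem t_eq : t = Pool.Agent.Results.MP_f1a024_nt.MultiplesAlongPrimes.t := rfl

/-- **Pairs from two dense sets and `t(n) = ζ(2n)/ζ(n)²`, at the scales `M ≥ D ^ n`.** -/
theorem result (β : ℝ) (hβ : IsAlgebraic ℚ β) (hβ0 : β ≠ 0) (K : ℕ) (η : ℝ) (hη : 0 < η) (D C : ℝ)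
    (hD : 2 < D ∨ (1 < D ∧ Irrational β)) (hC : 0 ≤ C) :
    ∃ κ : ℝ, 0 < κ ∧ ∃ n0 : ℕ, ∀ n : ℕ, n0 ≤ n → ∀ M : ℕ, D ^ n ≤ (M : ℝ) → (M : ℝ) ≤ C ^ n →
        PGood K η κ M (β * t n) := by
  have hroth : ∀ C B : ℝ, 1 < B → ∃ n0 : ℕ, ∀ n : ℕ, n0 ≤ n → ∀ p q : ℤ, 1 ≤ q → (q : ℝ) ≤ C ^ n →
      (p : ℝ) / q ≠ β → 1 / ((q : ℝ) ^ 2 * B ^ n) < |β * t n - p / q| :=
    Pool.Agent.Results.MP_f1a024_nt.MultiplesAlongPrimes.roth β hβ hβ0
  rcases hD with hD | ⟨hD, hirr⟩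
  · refine Pool.Agent.Q47.DG.Abs.roth_good _ (Pool.Agent.Q47.DG.Abs.engine_prod K η hη) (fun n => β * t n) β 2
      (by norm_num) hroth (Or.inr ?_) D C hD hC
    refine ⟨|β| * (1 / 4), by positivity, 2, fun n hn => ?_⟩
    have h1 := (Pool.Agent.Results.MP_f1a024_nt.MultiplesAlongPrimes.t_bounds hn).1
    rw [← t_eq] at h1
    have e1 : β * t n - β = -(β * (1 - t n)) := by ring
    rw [e1, abs_neg, abs_mul, mul_div_assoc]
    apply mul_le_mul_of_nonneg_left _ (abs_nonneg β)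
    exact h1.trans (le_abs_self _)
  · refine Pool.Agent.Q47.DG.Abs.roth_good _ (Pool.Agent.Q47.DG.Abs.engine_prod K η hη) (fun n => β * t n) β 1
      le_rfl hroth (Or.inl ?_) D C hD hC
    intro p q hq heq
    apply hirr
    exact ⟨(p : ℚ) / q, by push_cast; exact heq⟩

end Pool.Agent.Results.MP_f1a024_nt.PairsFromDenseSets
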