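import Pool.Agent.Q23.MV.Zeta
import Pool.Agent.H340R2.LW

/-!
# Values of `ζ` and of L-functions at integral combinations of several parameters, with powers of `π`

For a point `x` of `ℂ^n` we consider the numbers `L^(l)(k_i·x + y_i, χ_j)`, `l < s` (analytic continuation; `ζ` for the
modulus `1`), for nonzero vectors `k_i` of nonnegative integers, real `y_i` and different Dirichlet characters `χ_j`, and
`exp(L_i·x)` for real vectors `L_i`, for instance `π^(x_1)`, …, `π^(x_n)`. Among the quotients of these numbers are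
`t(q) = ζ(2 q)/ζ(q)²`, `ζ(q)²/π^(2 q)`, `ζ(q + r)/(ζ(q) ζ(r))`, ….

(1) These functions are algebraically independent over `ℂ(x_1, …, x_n)`.

(2) For the points `x` of `F^n`, `F` a number field of bounded degree, of height at most `T`, the numbers satisfy no
polynomial relation of bounded degree and of height at most `T^A`, even with arbitrary complex constants, outside at
most `C T^ε` hypersurfaces of bounded degree.

(3) The hypotheses on the `L_i` hold for the functions `π^(x_i)`.
-/

set_option autoImplicit false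

open Set Filter Topology NumberField

namespace Pool.Agent.Results.MP_f1a024_nt.SeveralParameters

/-- The points `x` of `ℂ^n` such that no `k_i·x + y_i` is the pole `1`. -/
def Dom {n r : ℕ} (k : Fin r → Fin n → ℕ) (y : Fin r → ℝ) : Set (Fin n → ℂ) :=
  {x | ∀ i, ∑ j, (k i j : ℂ) * x j + y i ≠ 1}

/-- The values at `x`: `L^(l)(k_i·x + y_i, χ_j)`, `l < s` (index `inl (i, (j, l))`), and `exp(L_i·x)` (index `inr i`). -/
noncomputable def value {N n c r u : ℕ} [NeZero N] (s : ℕ) (χ : Fin c → DirichletCharacter ℂ N)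
    (k : Fin r → Fin n → ℕ) (y : Fin r → ℝ) (L : Fin u → Fin n → ℝ) :
    (Fin r × (Fin c × Fin s)) ⊕ Fin u → (Fin n → ℂ) → ℂ
  | Sum.inl p, x => iteratedDeriv (p.2.2 : ℕ) (DirichletCharacter.LFunction (χ p.2.1))
      (∑ j, (k p.1 j : ℂ) * x j + y p.1)
  | Sum.inr i, x => Complex.exp (∑ j, (L i j : ℂ) * x j)

/-- For every compact subset `L` of `U` and all `m`, `g`, `d`, `A` and `ε > 0` there are `D`, `C`, `T₀` such that for every
number field `F` of degree at most `m`, every embedding `ι` of `F` in `ℂ`, all complex numbers `ξ_1, …, ξ_g` and all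
`T ≥ T₀` there are at most `C T^ε` hypersurfaces `Q = 0` of degree at most `D` with the following property. If `x` is a
point with coordinates in `F` outside these hypersurfaces, with image in `L`, whose coordinates are quotients of two
integers of `F` all of whose conjugates have absolute value at most `T`, then no nonzero polynomial `P` of degree at most
`d` in each variable, with coefficients of the form `∑ ξ_a ι(c_a)`, where the `c_a` are integers of `F` all of whose
conjugates have absolute value at most `T ^ A`, vanishes at the numbers `f y (ι x)`. -/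
def FewRelations {X κ : Type} [Fintype X] (U : Set (X → ℂ)) (f : κ → (X → ℂ) → ℂ) : Prop :=
  ∀ L : Set (X → ℂ), IsCompact L → L ⊆ U → ∀ (m g d : ℕ) (A ε : ℝ), 0 < ε →
    ∃ (D : ℕ) (C T₀ : ℝ), ∀ (F : Type) [Field F] [NumberField F], Module.finrank ℚ F ≤ m → ∀ (ι : F →+* ℂ)
      (ξ : Fin g → ℂ) (T : ℝ), T₀ ≤ T → ∃ Φ : Finset (MvPolynomial X ℂ), (Φ.card : ℝ) ≤ C * T ^ ε ∧
        (∀ Q ∈ Φ, Q ≠ 0 ∧ Q.totalDegree ≤ D) ∧
        ∀ x : X → F, (fun j => ι (x j)) ∈ L →
          (∀ j, ∃ a b : 𝓞 F, b ≠ 0 ∧ (∀ φ : F →+* ℂ, ‖φ a‖ ≤ T ∧ ‖φ b‖ ≤ T) ∧ x j = a / b) →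
          (∀ Q ∈ Φ, MvPolynomial.eval (fun j => ι (x j)) Q ≠ 0) →
          ∀ P : MvPolynomial κ ℂ, P ≠ 0 → (∀ y, P.degreeOf y ≤ d) →
            (∀ s, ∃ c : Fin g → 𝓞 F, (∀ a (φ : F →+* ℂ), ‖φ (c a)‖ ≤ T ^ A) ∧ P.coeff s = ∑ a, ξ a * ι (c a)) →
            MvPolynomial.aeval (fun y => f y (fun j => ι (x j))) P ≠ 0

/-- The vectors `L_i` are linearly independent over `ℚ`. -/
def IndependentVectors {n u : ℕ} (L : Fin u → Fin n → ℝ) : Prop :=
  ∀ m : Fin u → ℤ, (∀ j, ∑ i, (m i : ℝ) * L i j = 0) → m = 0

/-- No nonzero integral combination of the coordinates `L_ij` is the logarithm of a positive rational number. -/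
def NoLogs {n u : ℕ} (L : Fin u → Fin n → ℝ) : Prop :=
  ∀ (c : Fin u → Fin n → ℤ) (a b : ℕ), 1 ≤ a → 1 ≤ b →
    ∑ i, ∑ j, (c i j : ℝ) * L i j = Real.log a - Real.log b → ∑ i, ∑ j, (c i j : ℝ) * L i j = 0

open Pool.Agent.Q23.MV Pool.Agent.Q23.ZZ

theorem value_eq {N n c r u : ℕ} [NeZero N] (s : ℕ) (χ : Fin c → DirichletCharacter ℂ N)
    (k : Fin r → Fin n → ℕ) (y : Fin r → ℝ) (L : Fin u → Fin n → ℝ) :
    value s χ k y L = Sum.elim (zM s χ k y) fun i x => Complex.exp (∑ j, (L i j : ℂ) * x j) := by
  funext a x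
  rcases a with p | i <;> rfl

/-- the group generated by the coordinates -/
def grp {n u : ℕ} (L : Fin u → Fin n → ℝ) : AddSubgroup ℝ where
  carrier := {β | ∃ c : Fin u → Fin n → ℤ, β = ∑ i, ∑ j, (c i j : ℝ) * L i j}
  zero_mem' := ⟨0, by simp⟩
  add_mem' := by
    rintro _ _ ⟨c, rfl⟩ ⟨c', rfl⟩
    refine ⟨c + c', ?_⟩
    simp only [Pi.add_apply, Int.cast_add, add_mul, Finset.sum_add_distrib]
  neg_mem' := by
    rintro _ ⟨c, rfl⟩
    refine ⟨-c, ?_⟩
    simp only [Pi.neg_apply, Int.cast_neg, neg_mul, Finset.sum_neg_distrib]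

theorem grp_mem {n u : ℕ} (L : Fin u → Fin n → ℝ) (i : Fin u) (j : Fin n) : L i j ∈ grp L := by
  classical
  refine ⟨fun i' j' => if i' = i ∧ j' = j then 1 else 0, ?_⟩
  rw [Finset.sum_eq_single i]
  · rw [Finset.sum_eq_single j]
    · simp
    · intro j' _ hj'
      simp [hj']
    · intro h
      exact absurd (Finset.mem_univ _) h
  · intro i' _ hi'
    refine Finset.sum_eq_zero fun j' _ => ?_
    simp [hi']
  · intro h
    exact absurd (Finset.mem_univ _) h

/-- **L-functions at integral combinations of several parameters.** Let `k_i` be nonzero vectors of nonnegative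
integers and `y_i` real, the pairs `(k_i, y_i)` different, `χ_j` different Dirichlet characters of one modulus, and `L_i`
real vectors, linearly independent over `ℚ`, such that no nonzero integral combination of their coordinates is the
logarithm of a positive rational number. (1) No nonzero polynomial in the functions `L^(l)(k_i·x + y_i, χ_j)`,
`exp(L_i·x)` with coefficients in `ℂ[x_1, …, x_n]` vanishes identically. (2) There are few relations between their
values in the sense of `FewRelations`, on the set of all points where no `k_i·x + y_i` is `1`. (3) The hypotheses on the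
`L_i` hold for `L_ij = δ_ij log π`, that is for `exp(L_i·x) = π^(x_i)`. -/
theorem result :
    (∀ (N n c r u s : ℕ) [NeZero N] (χ : Fin c → DirichletCharacter ℂ N) (k : Fin r → Fin n → ℕ) (y : Fin r → ℝ)
      (L : Fin u → Fin n → ℝ), 1 ≤ n → Function.Injective χ → (∀ i, k i ≠ 0) →
      (Function.Injective fun i => (k i, y i)) → IndependentVectors L → NoLogs L →
      (∀ P : MvPolynomial ((Fin r × (Fin c × Fin s)) ⊕ Fin u) (MvPolynomial (Fin n) ℂ), P ≠ 0 →
        ∃ x ∈ Dom k y, MvPolynomial.eval₂ (MvPolynomial.eval x) (fun a => value s χ k y L a x) P ≠ 0) ∧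
      FewRelations (Dom k y) (value s χ k y L)) ∧
    ∀ n : ℕ, IndependentVectors (fun i j : Fin n => if i = j then Real.log Real.pi else 0) ∧
      NoLogs (fun i j : Fin n => if i = j then Real.log Real.pi else 0) := by
  classical
  refine ⟨fun N n c r u s _ χ k y L hn hχ hk hky hL hlog => ?_, fun n => ⟨fun m hm => ?_, fun c a b ha hb h => ?_⟩⟩
  · have ind : ∀ p : MvPolynomial ((Fin r × (Fin c × Fin s)) ⊕ Fin u) (MvPolynomial (Fin n) ℂ),
        (∀ x ∈ DomZ k y, Pool.Agent.Y890.MV.evM (value s χ k y L) x p = 0) → p = 0 := by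
      intro p hp
      refine zM_ind s χ hχ k hk y hky L hL (grp L) (grp_mem L) ?_ p fun x hx => ?_
      · rintro β ⟨c, rfl⟩ a b ha hb h
        exact hlog c a b ha hb h
      · rw [← value_eq]
        exact hp x hx
    refine ⟨fun P hP => ?_, ?_⟩
    · by_contra hcon
      push Not at hcon
      exact hP (ind P fun x hx => hcon x hx)
    · haveI : Nonempty (Fin n) := ⟨⟨0, hn⟩⟩
      intro Lc hLc hLU m g d A ε hε
      have han : ∀ a, AnalyticOnNhd ℂ (value s χ k y L a) (DomZ k y) := by
        intro a x hx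
        rw [value_eq]
        rcases a with a | i
        · exact zM_an s χ k y a x hx
        · change AnalyticAt ℂ (fun x : Fin n → ℂ => Complex.exp (∑ j, (L i j : ℂ) * x j)) x
          exact (Finset.analyticAt_fun_sum _ fun j _ => analyticAt_const.mul
            ((ContinuousLinearMap.proj (R := ℂ) (φ := fun _ : Fin n => ℂ) j).analyticAt x)).cexp
      obtain ⟨x0, hx0⟩ := domZ_real k hk y
      exact mvFew (domZ_conn k y) (domZ_open k y) ⟨_, hx0 x0 fun j => by simp⟩ han ind Lc hLc hLU m g d A ε hε
  · funext i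
    have h1 : ∑ i', (m i' : ℝ) * (if i' = i then Real.log Real.pi else 0) = 0 := hm i
    rw [Finset.sum_eq_single i] at h1
    · rw [if_pos rfl] at h1
      have h2 : Real.log Real.pi ≠ 0 := (Real.log_pos (by linarith [Real.pi_gt_three])).ne'
      exact_mod_cast (mul_eq_zero.1 h1).resolve_right h2
    · intro i' _ hi'
      rw [if_neg hi', mul_zero]
    · intro h
      exact absurd (Finset.mem_univ _) h
  · -- `π ^ M = a / b`
    have h1 : ∑ i, ∑ j, (c i j : ℝ) * (if i = j then Real.log Real.pi else 0) =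
        ((∑ i, c i i : ℤ) : ℝ) * Real.log Real.pi := by
      push_cast
      rw [Finset.sum_mul]
      refine Finset.sum_congr rfl fun i _ => ?_
      rw [Finset.sum_eq_single i]
      · rw [if_pos rfl]
      · intro j _ hj
        rw [if_neg (Ne.symm hj), mul_zero]
      · intro h
        exact absurd (Finset.mem_univ _) h
    rw [h1] at h ⊢
    have hb0 : (0 : ℝ) < b := by exact_mod_cast hb
    have ha0 : (0 : ℝ) < a := by exact_mod_cast ha
    have h2 : Real.pi ^ (∑ i, c i i : ℤ) = (a : ℝ) / b := by
      apply Real.log_injOn_pos (Set.mem_Ioi.2 (zpow_pos Real.pi_pos _)) (Set.mem_Ioi.2 (div_pos ha0 hb0))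
      rw [Real.log_zpow, h, Real.log_div ha0.ne' hb0.ne']
    have h3 : (∑ i, c i i : ℤ) = 0 := by
      by_contra hne
      apply Pool.Agent.H340R2.LW.transcendental_pi
      have h4 : IsAlgebraic ℚ (Real.pi ^ (∑ i, c i i : ℤ)) := by
        rw [h2]
        have : ((a : ℝ) / b) = algebraMap ℚ ℝ ((a : ℚ) / b) := by
          rw [eq_ratCast]
          push_cast
          rfl
        rw [this]
        exact isAlgebraic_algebraMap _
      have h5 : IsAlgebraic ℚ (Real.pi ^ (∑ i, c i i : ℤ).natAbs) := by
        rcases Int.natAbs_eq (∑ i, c i i : ℤ) with h6 | h6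
        · rw [← zpow_natCast, ← h6]
          exact h4
        · have h7 : Real.pi ^ (∑ i, c i i : ℤ).natAbs = (Real.pi ^ (∑ i, c i i : ℤ))⁻¹ := by
            rw [← zpow_neg, ← zpow_natCast]
            congr 1
            omega
          rw [h7]
          exact h4.inv
      exact IsAlgebraic.of_pow (Int.natAbs_pos.2 hne) h5
    rw [h3, Int.cast_zero, zero_mul]

end Pool.Agent.Results.MP_f1a024_nt.SeveralParameters
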